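import Mathlib

/-!
# MP_d96af6_lc: `ILog(ω^n)` is not locally finite for `n ≥ 2`

The formulas `π d i` (`d : ℕ`, `i : Fin 3`) in three variables are defined by `π 0 i = p_i` and
`π (d+1) i = (π d (i+2) → (π d 0 ∧ π d 1)) ∨ π d 0 ∨ π d 1 ∨ π d 2`.  In the model on `ω^n` in
which `p_i` holds at `a` iff `a_0 + a_1 > N`, or `a_0 + a_1 = N` and `a_0 ≡ i (mod 3)`, the
formula `π d i` holds at `a` iff `a_0 + a_1 > N - d`, or `a_0 + a_1 = N - d` and
`a_0 ≡ i (mod 3)`.
-/

set_option autoImplicit false

namespace Pool.Agent.Results.MP_d96af6_lc.NotLocallyFinite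

/-- Intuitionistic formulas in the variables `p_0, ..., p_{k-1}`. -/
inductive IForm (k : ℕ) : Type where
  | var (i : Fin k) : IForm k
  | bot : IForm k
  | and (φ ψ : IForm k) : IForm k
  | or (φ ψ : IForm k) : IForm k
  | imp (φ ψ : IForm k) : IForm k

/-- Equivalence `φ ↔ ψ`. -/
def IForm.iff {k : ℕ} (φ ψ : IForm k) : IForm k := .and (.imp φ ψ) (.imp ψ φ)

/-- Truth at a point of a partial order `W` under the valuation `V`. -/
def force {W : Type} [PartialOrder W] {k : ℕ} (V : Fin k → Set W) : IForm k → W → Prop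
  | .var i => fun x => x ∈ V i
  | .bot => fun _ => False
  | .and φ ψ => fun x => force V φ x ∧ force V ψ x
  | .or φ ψ => fun x => force V φ x ∨ force V ψ x
  | .imp φ ψ => fun x => ∀ y, x ≤ y → force V φ y → force V ψ y

/-- The formulas in `k` variables of the intermediate logic of the partial order `W`: those true
at every point under every intuitionistic valuation. -/
def ILog (W : Type) [PartialOrder W] (k : ℕ) : Set (IForm k) :=
  {φ | ∀ V : Fin k → Set W, (∀ i, IsUpperSet (V i)) → ∀ x, force V φ x}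

/-- Local finiteness of the intermediate logic of `W`: for every `k` there are only finitely many
formulas in `k` variables up to equivalence in the logic. -/
def LocallyFinite (W : Type) [PartialOrder W] : Prop :=
  ∀ k : ℕ, ∃ B : Set (IForm k), B.Finite ∧ ∀ φ : IForm k, ∃ ψ ∈ B, φ.iff ψ ∈ ILog W k

/-- The formulas. -/
def π : ℕ → Fin 3 → IForm 3
  | 0, i => .var i
  | d + 1, i => .or (.imp (π d (i + 2)) (.and (π d 0) (π d 1)))
      (.or (π d 0) (.or (π d 1) (π d 2)))

section
variable {n : ℕ} (i0 i1 : Fin n) (N : ℕ)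

/-- The truth sets. -/
def T (d : ℕ) (i : Fin 3) : Set (Fin n → ℕ) :=
  {a | N < a i0 + a i1 + d ∨ (a i0 + a i1 + d = N ∧ a i0 % 3 = i)}

theorem truth (h01 : i0 ≠ i1) (d : ℕ) (i : Fin 3) (a : Fin n → ℕ) :
    force (T i0 i1 N 0) (π d i) a ↔ a ∈ T i0 i1 N d i := by
  induction d generalizing i a with
  | zero => exact Iff.rfl
  | succ d ih =>
    simp only [π, force, ih]
    have hi : ((i + 2 : Fin 3) : ℕ) = (i.val + 2) % 3 := by fin_cases i <;> rfl
    have hi3 : i.val < 3 := i.2
    constructor
    · intro h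
      by_contra hcon
      have hcon1 : ¬ (N < a i0 + a i1 + (d + 1)) := fun h' => hcon (Or.inl h')
      have hcon2 : ¬ (a i0 + a i1 + (d + 1) = N ∧ a i0 % 3 = i) := fun h' => hcon (Or.inr h')
      have aux : ∀ j : Fin 3, a ∉ T i0 i1 N d j := by
        rintro j (h' | h')
        · omega
        · have := h'.1
          omega
      rcases h with h | h | h | h
      · -- find a point
        obtain ⟨j, hj1, hj2⟩ : ∃ j, a i0 + a i1 + d + j ≤ N ∧ (a i0 + j) % 3 = (i.val + 2) % 3 := by
          by_cases h1 : a i0 % 3 = (i.val + 2) % 3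
          · exact ⟨0, by omega, by omega⟩
          · by_cases h2 : (a i0 + 1) % 3 = (i.val + 2) % 3
            · exact ⟨1, by omega, h2⟩
            · refine ⟨2, ?_, by omega⟩
              by_contra h3
              apply hcon2
              constructor <;> omega
        let b : Fin n → ℕ := Function.update (Function.update a i0 (a i0 + j)) i1
          (N - d - (a i0 + j))
        have hb0 : b i0 = a i0 + j := by
          simp only [b]
          rw [Function.update_of_ne h01, Function.update_self]
        have hb1 : b i1 = N - d - (a i0 + j) := by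
          simp only [b]
          rw [Function.update_self]
        have hab : a ≤ b := by
          intro m
          by_cases hm1 : m = i1
          · have : a i1 ≤ b i1 := by rw [hb1]; omega
            rw [hm1]; exact this
          · by_cases hm0 : m = i0
            · have : a i0 ≤ b i0 := by rw [hb0]; omega
              rw [hm0]; exact this
            · simp only [b]
              rw [Function.update_of_ne hm1, Function.update_of_ne hm0]
        have hbT : b ∈ T i0 i1 N d (i + 2) := by
          right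
          rw [hb0, hb1, hi]
          exact ⟨by omega, hj2⟩
        obtain ⟨h5, h6⟩ := h b hab hbT
        have h5' : N < b i0 + b i1 + d ∨ (b i0 + b i1 + d = N ∧ b i0 % 3 = 0) := h5
        have h6' : N < b i0 + b i1 + d ∨ (b i0 + b i1 + d = N ∧ b i0 % 3 = 1) := h6
        rw [hb0, hb1] at h5' h6'
        omega
      · exact aux 0 h
      · exact aux 1 h
      · exact aux 2 h
    · rintro (h | ⟨h, h'⟩)
      · right
        by_cases h1 : N < a i0 + a i1 + d
        · left; left; exact h1
        · have h2 : a i0 + a i1 + d = N := by omega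
          have h3 : a i0 % 3 = 0 ∨ a i0 % 3 = 1 ∨ a i0 % 3 = 2 := by omega
          rcases h3 with h3 | h3 | h3
          · left; right; exact ⟨h2, h3⟩
          · right; left; right; exact ⟨h2, h3⟩
          · right; right; right; exact ⟨h2, h3⟩
      · left
        intro b hab hb
        have hb0 : a i0 ≤ b i0 := hab i0
        have hb1 : a i1 ≤ b i1 := hab i1
        rcases hb with hb | ⟨hb, hb'⟩
        · exact ⟨Or.inl hb, Or.inl hb⟩
        · exfalso
          rw [hi] at hb'
          omega

end

theorem upper {n : ℕ} (i0 i1 : Fin n) (N : ℕ) (i : Fin 3) : IsUpperSet (T i0 i1 N 0 i) := by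
  intro a b hab ha
  have h0 : a i0 ≤ b i0 := hab i0
  have h1 : a i1 ≤ b i1 := hab i1
  by_cases h : N < b i0 + b i1
  · exact Or.inl h
  · rcases ha with ha | ⟨ha, ha'⟩
    · exfalso; omega
    · right
      have h2 : b i0 = a i0 := by omega
      have h3 : b i1 = a i1 := by omega
      rw [h2, h3]
      exact ⟨ha, ha'⟩

/-- For every `n ≥ 2`, the intermediate logic of `ω^n` is not locally finite; already three
variables yield infinitely many pairwise non-equivalent formulas. -/
theorem result : ∀ n : ℕ, 2 ≤ n →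
    (∃ f : ℕ → IForm 3, ∀ d e : ℕ, d ≠ e → (f d).iff (f e) ∉ ILog (Fin n → ℕ) 3) ∧
    ¬ LocallyFinite (Fin n → ℕ) := by
  intro n hn
  let i0 : Fin n := ⟨0, by omega⟩
  let i1 : Fin n := ⟨1, by omega⟩
  have h01 : i0 ≠ i1 := by simp [i0, i1]
  -- the formulas are pairwise non-equivalent
  have key : ∀ d e : ℕ, d < e → ∀ V, (V = T i0 i1 e 0) →
      ¬ (force V (π d 0) (fun _ => 0) ↔ force V (π e 0) (fun _ => 0)) := by
    rintro d e hde V rfl h
    rw [truth i0 i1 e h01, truth i0 i1 e h01] at h
    have h1 : (fun _ => 0 : Fin n → ℕ) ∈ T i0 i1 e e 0 := Or.inr ⟨by simp, by simp⟩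
    rcases h.2 h1 with h2 | ⟨h2, _⟩
    · simp at h2; omega
    · simp at h2; omega
  have key2 : ∀ d e : ℕ, d ≠ e → ∀ ψ : IForm 3,
      ¬ ((π d 0).iff ψ ∈ ILog (Fin n → ℕ) 3 ∧ (π e 0).iff ψ ∈ ILog (Fin n → ℕ) 3) := by
    have gen : ∀ d e : ℕ, d < e → ∀ ψ : IForm 3,
        ¬ ((π d 0).iff ψ ∈ ILog (Fin n → ℕ) 3 ∧ (π e 0).iff ψ ∈ ILog (Fin n → ℕ) 3) := by
      rintro d e hde ψ ⟨h1, h2⟩
      have h3 := h1 (T i0 i1 e 0) (upper i0 i1 e) (fun _ => 0)
      have h4 := h2 (T i0 i1 e 0) (upper i0 i1 e) (fun _ => 0)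
      exact key d e hde _ rfl ⟨fun h => h4.2 _ le_rfl (h3.1 _ le_rfl h),
        fun h => h3.2 _ le_rfl (h4.1 _ le_rfl h)⟩
    intro d e hde ψ h
    rcases lt_or_gt_of_ne hde with h' | h'
    · exact gen d e h' ψ h
    · exact gen e d h' ψ h.symm
  constructor
  · refine ⟨fun d => π d 0, fun d e hde h => ?_⟩
    refine key2 d e hde (π e 0) ⟨h, ?_⟩
    intro V _ x
    exact ⟨fun y _ h => h, fun y _ h => h⟩
  · intro hlf
    obtain ⟨B, hB, hB'⟩ := hlf 3
    choose g hg hg' using fun d : ℕ => hB' (π d 0)
    have hinj : Function.Injective g := by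
      intro d e hde
      by_contra hne
      refine key2 d e hne (g d) ⟨hg' d, ?_⟩
      rw [hde]
      exact hg' e
    exact Set.infinite_of_injective_forall_mem hinj hg hB

end Pool.Agent.Results.MP_d96af6_lc.NotLocallyFinite
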